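import Pool.Agent.Q51.SZ.Stm
import Pool.Agent.Y183.PS.Ine
import Pool.Agent.Q150.SX.Plc

/-!
# Project SZ (helper51), job INV
-/

set_option autoImplicit false
set_option linter.unusedVariables false

namespace Pool.Agent.Q38.SZ

open Polynomial NumberField
open Pool.Agent.Y157.PS
open Pool.Agent.Q51.SZ

theorem inv : S_INV := by
  intro f q B A _ _ _ hG hq l V hAt
  have hc : CharZero A := algebraRat.charZero A
  haveI : Fact q.Prime := ⟨hq⟩
  have hl : l.Prime := hAt.pr
  have hqU : IsU V (q : A) := by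
    have hq0 : (q : A) ≠ 0 := by exact_mod_cast hq.ne_zero
    refine ⟨hq0, natCast_mem V q, ?_⟩
    have h1 := (Pool.Agent.Q150.SX.mem_rat hl hAt.ab ((q : ℚ)⁻¹)).2 (by
      rw [Rat.inv_natCast_den_of_pos hq.pos]
      intro hd
      exact hG.nq l hl hAt.nd ((Nat.prime_dvd_prime_iff_eq hl hq).1 hd))
    rwa [map_inv₀, map_natCast] at h1
  refine ⟨?_, ?_, ?_, ?_⟩
  · intro σ hσ
    refine ⟨?_, fun ζ hζ => Ine.fix_root hqU hσ hζ⟩
    intro i
    by_contra hne
    have h1 := hG.dist l V hAt (σ • i) i hne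
    rw [smul_val] at h1
    exact h1.not_nonunit (hσ.2 i.1 (hG.int l V hAt i))
  · intro z hz hfix
    obtain ⟨A0, _, _, _, _, hfin, hfrac, hirr, hmem, happ⟩ := Pool.Agent.W240.S3.zloc l hl
    let _ : Algebra A0 A := ((algebraMap ℚ A).comp (algebraMap A0 ℚ)).toAlgebra
    have hst : IsScalarTower A0 ℚ A := IsScalarTower.of_algebraMap_eq' rfl
    have hinj : Function.Injective (algebraMap A0 ℚ) := IsFractionRing.injective A0 ℚ
    have h1 : ∀ a : A0, algebraMap A0 A a ∈ V := by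
      intro a
      show algebraMap ℚ A (algebraMap A0 ℚ a) ∈ V
      rw [Pool.Agent.Q150.SX.mem_rat hl hAt.ab]
      obtain ⟨r, hr⟩ : ∃ r, r = algebraMap A0 ℚ a := ⟨_, rfl⟩
      rw [← hr]
      intro hd
      have h2 : ((r.den : ℤ) : A0) * a = ((r.num : ℤ) : A0) := by
        apply hinj
        rw [map_mul, map_intCast, map_intCast, ← hr]
        push_cast
        exact Rat.den_mul_eq_num r
      have h3 : ((r.den : ℤ) : A0) ∈ IsLocalRing.maximalIdeal A0 :=
        (hmem _).2 (by exact_mod_cast hd)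
      have h4 : ((r.num : ℤ) : A0) ∈ IsLocalRing.maximalIdeal A0 := by
        rw [← h2]
        exact Ideal.mul_mem_right _ _ h3
      have h5 : (l : ℤ) ∣ r.num := (hmem _).1 h4
      have h6 : l ∣ r.num.natAbs := Int.natCast_dvd.1 h5
      have h7 := Nat.Coprime.eq_one_of_dvd (Nat.Coprime.coprime_dvd_left h6 r.reduced) hd
      exact hl.one_lt.ne' h7
    have h2 : ∀ a ∈ IsLocalRing.maximalIdeal A0, algebraMap A0 A a ∈ V.nonunits := by
      intro a ha
      rw [hirr.maximalIdeal_eq, Ideal.mem_span_singleton] at ha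
      obtain ⟨b, rfl⟩ := ha
      rw [map_mul, map_natCast, mul_comm]
      exact non_mul (h1 b) hAt.ab
    obtain ⟨j, hj⟩ := Pool.Agent.Y183.PS.ine A0 ℚ A V (l : A0) h1 h2 hirr z hz hfix
    rw [map_natCast] at hj
    exact ⟨j, hj⟩
  · intro k hk
    have hpow : ∀ n : ℕ, 0 < n → ¬ IsU V ((l : A) ^ n) := by
      intro n hn h
      exact (isU_of_pow hn h).not_nonunit hAt.ab
    rcases lt_trichotomy k 0 with h | h | h
    · exfalso
      obtain ⟨n, hn⟩ : ∃ n : ℕ, (n : ℤ) = -k := ⟨(-k).toNat, Int.toNat_of_nonneg (by omega)⟩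
      have h1 := hk.inv
      rw [← zpow_neg, ← hn, zpow_natCast] at h1
      exact hpow n (by omega) h1
    · exact h
    · exfalso
      obtain ⟨n, hn⟩ : ∃ n : ℕ, (n : ℤ) = k := ⟨k.toNat, Int.toNat_of_nonneg h.le⟩
      rw [← hn, zpow_natCast] at hk
      exact hpow n (by omega) hk
  · intro σ τ hσ hτ
    have := Ine.conj (Dec.inv hσ) hτ
    rwa [inv_inv] at this

end Pool.Agent.Q38.SZ
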